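import Pool.Agent.R228.QG.Bip

/-!
# Equilateral complete bipartite graphs: every point is a hot spot
-/

set_option autoImplicit false

namespace Pool.Agent.Results.MP_630a53_an.CompleteBipartite

open Pool.Agent.R228.QG

/-- For all `m, n ≥ 3` the equilateral complete bipartite graph `bip m n` (vertex set
`Fin m ⊕ Fin n`, one edge of length `π / 2` between any two vertices of different classes) is
connected, every one of its points is a hot spot (standard conditions: all strengths are `0`), and
it is neither an equilateral pumpkin nor an equilateral complete graph, not even after vertices of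
degree two are inserted or removed: for every such graph `Δ` there is a valency `d ≥ 3` for which
the numbers of points of valency `d` in the two metric graphs differ. -/
theorem result (m n : ℕ) (hm : 3 ≤ m) (hn : 3 ≤ n) :
    (bip m n).Connected ∧
    hotSet (bip m n) (fun _ => 0) = Set.univ ∧
    ∀ (V E : Type) [Fintype V] [Fintype E] [DecidableEq V] (Δ : MGraph V E),
      IsEquilateralPumpkin Δ ∨ IsEquilateralComplete Δ →
        ∃ d, 3 ≤ d ∧ numDeg (bip m n) d ≠ numDeg Δ d :=
  ⟨bip_connected (by omega) (by omega), bip_hot (by omega) (by omega),
    fun _ _ _ _ _ Δ h => bip_ne hm hn Δ h⟩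

end Pool.Agent.Results.MP_630a53_an.CompleteBipartite
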